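import Pool.Agent.W555.KS.Defs

set_option autoImplicit false

namespace Pool.Agent.W646.KS

open Finset MvPolynomial Pool.Agent.W555.KS

/-- the rank of an element -/
def rk {n : ℕ} (U : Finset (Fin n)) (u : Fin n) : ℕ := (U.filter (fun w => w < u)).card

theorem rk_lt {n : ℕ} {U : Finset (Fin n)} {u u' : Fin n} (hu : u ∈ U) (h : u < u') :
    rk U u < rk U u' := by
  apply Finset.card_lt_card
  refine ⟨fun w hw => ?_, fun hsub => ?_⟩
  · rw [mem_filter] at hw ⊢
    exact ⟨hw.1, hw.2.trans h⟩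
  · have := hsub (mem_filter.2 ⟨hu, h⟩)
    rw [mem_filter] at this
    exact lt_irrefl _ this.2

theorem rk_inj {n : ℕ} {U : Finset (Fin n)} {u u' : Fin n} (hu : u ∈ U) (hu' : u' ∈ U)
    (h : rk U u = rk U u') : u = u' := by
  rcases lt_trichotomy u u' with h1 | h1 | h1
  · have := rk_lt hu h1; omega
  · exact h1
  · have := rk_lt hu' h1; omega

theorem rk_lt_card {n : ℕ} {U : Finset (Fin n)} {u : Fin n} (hu : u ∈ U) : rk U u < U.card := by
  apply Finset.card_lt_card
  refine ⟨filter_subset _ _, fun hsub => ?_⟩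
  have := hsub hu
  rw [mem_filter] at this
  exact lt_irrefl _ this.2

theorem evenPart_card {n : ℕ} (U : Finset (Fin n)) : (evenPart U).card ≤ (U.card + 1) / 2 := by
  rw [← card_range ((U.card + 1) / 2)]
  refine Finset.card_le_card_of_injOn (fun u => rk U u / 2) ?_ ?_
  · intro u hu
    rw [mem_coe] at hu
    unfold evenPart at hu
    rw [mem_filter] at hu
    have h1 := rk_lt_card hu.1
    have h2 : Even (rk U u) := hu.2
    simp only [coe_range, Set.mem_Iio]
    obtain ⟨j, hj⟩ := h2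
    omega
  · intro u hu u' hu' h
    rw [mem_coe] at hu hu'
    unfold evenPart at hu hu'
    rw [mem_filter] at hu hu'
    obtain ⟨j, hj⟩ := (show Even (rk U u) from hu.2)
    obtain ⟨j', hj'⟩ := (show Even (rk U u') from hu'.2)
    refine rk_inj hu.1 hu'.1 ?_
    have h' : rk U u / 2 = rk U u' / 2 := h
    omega

theorem oddPart_card {n : ℕ} (U : Finset (Fin n)) : (oddPart U).card ≤ U.card / 2 := by
  rw [← card_range (U.card / 2)]
  refine Finset.card_le_card_of_injOn (fun u => rk U u / 2) ?_ ?_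
  · intro u hu
    rw [mem_coe] at hu
    unfold oddPart at hu
    rw [mem_filter] at hu
    have h1 := rk_lt_card hu.1
    have h2 : ¬ Even (rk U u) := hu.2
    simp only [coe_range, Set.mem_Iio]
    rw [Nat.not_even_iff_odd] at h2
    obtain ⟨j, hj⟩ := h2
    omega
  · intro u hu u' hu' h
    rw [mem_coe] at hu hu'
    unfold oddPart at hu hu'
    rw [mem_filter] at hu hu'
    obtain ⟨j, hj⟩ := Nat.not_even_iff_odd.1 (show ¬ Even (rk U u) from hu.2)
    obtain ⟨j', hj'⟩ := Nat.not_even_iff_odd.1 (show ¬ Even (rk U u') from hu'.2)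
    refine rk_inj hu.1 hu'.1 ?_
    have h' : rk U u / 2 = rk U u' / 2 := h
    omega

theorem even_odd_union {n : ℕ} (U : Finset (Fin n)) : evenPart U ∪ oddPart U = U := by
  unfold evenPart oddPart
  rw [filter_union_filter_not_eq]

theorem even_odd_disj {n : ℕ} (U : Finset (Fin n)) : Disjoint (evenPart U) (oddPart U) := by
  unfold evenPart oddPart
  exact disjoint_filter_filter_not _ _ _

section

variable {k R : Type} [Field k] [CommRing R] [Algebra k R] {n d : ℕ}

/-- the value of the functional -/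
noncomputable def mv (g : ℕ) (x : Fin n → R) (M : R →ₗ[k] k) (ω : R) (σ : Finset (Fin n)) : k :=
  M (ω ^ (g - σ.card) * ∏ v ∈ σ, x v)

/-- the cycle -/
noncomputable def Zc (g : ℕ) (a : Fin (d + 1) → Fin n → k) (x : Fin n → R) (M : R →ₗ[k] k) (ω : R)
    (σ τ : Finset (Fin n)) : k :=
  if Disjoint σ τ ∧ σ.card + τ.card = d + 1 ∧ σ.card ≤ g ∧ τ.card ≤ g then
    bra a (σ ∪ τ) * mv g x M ω σ * mv g x M ω τ else 0

theorem Zc_symm (g : ℕ) (a : Fin (d + 1) → Fin n → k) (x : Fin n → R) (M : R →ₗ[k] k) (ω : R)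
    (σ τ : Finset (Fin n)) : Zc g a x M ω σ τ = Zc g a x M ω τ σ := by
  unfold Zc
  by_cases h : Disjoint σ τ ∧ σ.card + τ.card = d + 1 ∧ σ.card ≤ g ∧ τ.card ≤ g
  · rw [if_pos h, if_pos ⟨h.1.symm, by omega, h.2.2.2, h.2.2.1⟩, union_comm]
    ring
  · rw [if_neg h, if_neg]
    rintro ⟨h1, h2, h3, h4⟩
    exact h ⟨h1.symm, by omega, h4, h3⟩

/-- one half of the cycle condition -/
theorem half_sum (hexp : StExp) [CharP k 2] (g : ℕ) (a : Fin (d + 1) → Fin n → k) (x : Fin n → R)
    (M : R →ₗ[k] k) (ω : R)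
    (ha : ∀ i : Fin d, ∑ v, a i.castSucc v • x v = 0)
    (hω : ω = ∑ v, a (Fin.last d) v • x v) (ρ τ : Finset (Fin n)) (hd : Disjoint ρ τ)
    (hc : ρ.card + τ.card = d) :
    ∑ v ∈ (ρ ∪ τ)ᶜ, Zc g a x M ω (insert v ρ) τ =
      if ρ.card + 1 ≤ g ∧ τ.card ≤ g then
        bra (fun i : Fin d => a i.castSucc) (ρ ∪ τ) * mv g x M ω ρ * mv g x M ω τ else 0 := by
  have hWc : (ρ ∪ τ).card = d := by rw [card_union_of_disjoint hd, hc]
  have h1 : ∀ v ∈ (ρ ∪ τ)ᶜ, Zc g a x M ω (insert v ρ) τ =
      if ρ.card + 1 ≤ g ∧ τ.card ≤ g then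
        mv g x M ω τ * (M (ω ^ (g - (ρ.card + 1)) * (x v * ∏ w ∈ ρ, x w)) *
          bra a (insert v (ρ ∪ τ))) else 0 := by
    intro v hv
    rw [mem_compl, mem_union, not_or] at hv
    have hcv : (insert v ρ).card = ρ.card + 1 := card_insert_of_notMem hv.1
    unfold Zc mv
    by_cases h : ρ.card + 1 ≤ g ∧ τ.card ≤ g
    · rw [if_pos h, if_pos ⟨disjoint_insert_left.2 ⟨hv.2, hd⟩, by rw [hcv]; omega,
        by rw [hcv]; exact h.1, h.2⟩, hcv, prod_insert hv.1, insert_union]
      ring
    · rw [if_neg h, if_neg]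
      rintro ⟨-, -, h3, h4⟩
      rw [hcv] at h3
      exact h ⟨h3, h4⟩
  rw [sum_congr rfl h1]
  by_cases h : ρ.card + 1 ≤ g ∧ τ.card ≤ g
  · simp only [if_pos h]
    rw [← mul_sum]
    have hrow : ∀ i : Fin (d + 1), ∑ v, a i v * M (ω ^ (g - (ρ.card + 1)) * (x v * ∏ w ∈ ρ, x w)) =
        M (ω ^ (g - (ρ.card + 1)) * ((∑ v, a i v • x v) * ∏ w ∈ ρ, x w)) := by
      intro i
      rw [sum_mul, mul_sum, map_sum]
      refine sum_congr rfl fun v _ => ?_
      rw [smul_mul_assoc, mul_smul_comm, map_smul, smul_eq_mul]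
    have he := hexp k n d a (fun v => M (ω ^ (g - (ρ.card + 1)) * (x v * ∏ w ∈ ρ, x w))) (ρ ∪ τ) hWc
      (fun i => by
        rw [hrow, ha i, zero_mul, mul_zero, map_zero])
    rw [he, hrow, ← hω]
    have h2 : ω ^ (g - (ρ.card + 1)) * (ω * ∏ w ∈ ρ, x w) = ω ^ (g - ρ.card) * ∏ w ∈ ρ, x w := by
      rw [← mul_assoc, ← pow_succ]
      congr 2
      omega
    rw [h2]
    unfold mv
    ring
  · simp only [if_neg h, sum_const_zero]

end

theorem t1 (hexp : StExp) : StT1 := by
  intro k R _ _ _ _ n d g L a x M ω hL hVK hface ha hω hdg hpow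
  have h2 : (2 : k) = 0 := CharP.cast_eq_zero k 2
  have hZ := hVK k (Zc g a x M ω) (Zc_symm g a x M ω) ?_ ?_
  · rw [← hZ]
    refine sum_congr rfl fun U hU => ?_
    rw [mem_powersetCard] at hU
    have he := evenPart_card U
    have ho := oddPart_card U
    have hdis := even_odd_disj U
    have hun := even_odd_union U
    have hcard : (evenPart U).card + (oddPart U).card = d + 1 := by
      rw [← card_union_of_disjoint hdis, hun, hU.2]
    unfold Zc
    rw [hU.2] at he ho
    rw [if_pos ⟨hdis, hcard, by omega, by omega⟩, hun]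
    rfl
  · intro σ τ hne
    unfold Zc at hne
    split_ifs at hne with hc
    · constructor
      · by_contra hσ
        apply hne
        unfold mv
        rw [hface σ hσ]
        simp
      · by_contra hτ
        apply hne
        unfold mv
        rw [hface τ hτ]
        simp
    · exact absurd rfl hne
  · intro ρ τ hdis hc
    have hc' : ρ.card + τ.card = d := by omega
    rw [sum_add_distrib]
    have e1 := half_sum hexp g a x M ω ha hω ρ τ hdis hc'
    have e2 : ∑ v ∈ (ρ ∪ τ)ᶜ, Zc g a x M ω ρ (insert v τ) =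
        if τ.card + 1 ≤ g ∧ ρ.card ≤ g then
          bra (fun i : Fin d => a i.castSucc) (ρ ∪ τ) * mv g x M ω ρ * mv g x M ω τ else 0 := by
      have h := half_sum hexp g a x M ω ha hω τ ρ hdis.symm (by omega)
      rw [union_comm τ ρ] at h
      rw [sum_congr rfl (fun v _ => Zc_symm g a x M ω ρ (insert v τ)), h]
      split_ifs
      · ring
      · rfl
    rw [e1, e2]
    by_cases hA : ρ.card + 1 ≤ g
    · by_cases hB : τ.card + 1 ≤ g
      · rw [if_pos ⟨hA, by omega⟩, if_pos ⟨hB, by omega⟩, ← two_mul, h2, zero_mul]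
      · have hn : ¬ (τ.card + 1 ≤ g ∧ ρ.card ≤ g) := fun h => hB h.1
        rw [if_neg hn, add_zero]
        split_ifs with h
        · -- |τ| = g, the exponent of `ρ` is `2 g - d`
          have h3 : g - ρ.card = 2 * g - d := by omega
          have h4 : mv g x M ω ρ = 0 := by
            unfold mv
            rw [h3, hpow, zero_mul, map_zero]
          rw [h4]
          ring
        · rfl
    · have hn : ¬ (ρ.card + 1 ≤ g ∧ τ.card ≤ g) := fun h => hA h.1
      rw [if_neg hn, zero_add]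
      split_ifs with h
      · have h3 : g - τ.card = 2 * g - d := by omega
        have h4 : mv g x M ω τ = 0 := by
          unfold mv
          rw [h3, hpow, zero_mul, map_zero]
        rw [h4]
        ring
      · rfl

end Pool.Agent.W646.KS
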